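import Pool.Agent.PSG.Fin

/-!
# PSG/AnnA: antidominant cocharacters

PROOFS.
* `exists_rho`: `ρ = -∑_{j > 0} co j`. With `X = ∑_{j>0} co j` and `i ∈ S`: `s_i` permutes the positive
  roots `≠ i` (`perm` and `refl_sq`), and `co (s_i j) = s_i (co j)` (`co_act`), `s_i co_i = -co_i`, hence
  `s_i X = X - 2 co_i`; also `s_i X = X - (pr i X) co_i` (`refl_Y`), so `(pr i X) co_i = 2 co_i`; apply
  `pr i`: `2 pr i X = 4`.
* `exists_rho_i`: `ρ + co i`; `pr j (co i) ≤ 0` for `j ≠ i` (`S_pair`), `pr i (co i) = 2`.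
* `rr_co`: `rr (co i) = ∑_{j>0} pr j (co i)`; for `j ≠ i` pair `j` with `s_i j`:
  `pr (s_i j) (co i) = pr j (s_i (co i)) = -pr j (co i)`, so `∑_{j>0, j≠i} = 0` (reindex by `s_i` and get
  `t = -t`), and the term `j = i` is `2`.
* `len_tt`: `inv (tt ν) = {(neg j, n) | ht j > 0, 1 ≤ n ≤ -pr j ν}`: for `(i, n)` positive,
  `act (tt ν) (i, n) = (i, n - pr i ν)`. If `ht i > 0` then `pr i ν ≤ 0` (`anti_pos`) and
  it stays positive. If `ht i < 0` then `n ≥ 1` and (with `j = neg i`, `pr i ν = -pr j ν =: m ≥ 0`) it is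
  negative iff `n - m ≤ 0`. Cardinality `∑_{j>0} (-pr j ν)` (e.g. `Set.ncard` of a finset
  `Finset.sigma`/`biUnion` of `Finset.Icc 1 m`).
* `len_tt_add`: from `len_tt` and additivity of `rr` (or `len_mul_of`).
* `T2`: `s_i t_ν = t_{s_i ν} s_i = t_ν s_i` (`tt_em`, `refl_Y`). Lengths: `len_mul_ref_pos`/`len_ref_mul_pos` with
  `SA (i,0)`: `act (tt ν) (i,0) = (i, 0)`, positive, and `(tt ν)⁻¹ = tt (-ν)`.
* `T3`: `len_ref_mul_neg`: `act (tt ν)⁻¹ (i,0) = (i, pr i ν)` is negative.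
* `T4`: `x = s_i t_ν = ⟨refl i, ν⟩`; `x * x = ⟨1, s_i ν + ν⟩`. Length: `len_mul_of x x`: let `a = (j, n)`
  positive, `x a = (s_i j, m)`, `m = n - pr j ν`, negative. If `ht j > 0`: `m ≥ n ≥ 0`, so `m = 0`,
  `n = 0`, `pr j ν = 0` and `ht (s_i j) < 0`, so `j = i` (`perm`), but `pr i ν = -1`, contradiction. So
  `ht j < 0`, `n ≥ 1`. `x (x a) = (j, m - pr (s_i j) ν)`. If `ht (s_i j) < 0`: `m ≤ 0` and
  `pr (s_i j) ν ≥ 0`, so the level is `≤ 0` and `ht j < 0`: negative. If `ht (s_i j) > 0`: then `neg j`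
  is positive with `s_i (neg j)` negative so `neg j = i`, `m = n - pr j ν = n + pr i ν = n - 1 ≥ 0`,
  and `(s_i j, m)` with `m ≥ 0`, `ht (s_i j) > 0` is positive: contradiction.
* `T5`: with `ν` antidominant, `pr i ν = -2`, `κ = ν + co i` is antidominant (`pr i κ = 0`;
  `pr j κ = pr j ν + pr j (co i) ≤ 0`), `⟨refl i, ν⟩ * ref (neg i, 1) = ⟨1, s_i ν - co i⟩ = tt κ`.
  `len (tt ν) = len (tt κ) + 2` by `len_tt` and `rr_co`; and `len (s_i t_ν) + 1 = len (tt ν)` by `T3`.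
  `act ⟨refl i, ν⟩ (neg i, 1) = (s_i (neg i), 1 + pr i ν) = (i, -1)`, negative.
* `exists_anti_add`: `κ = M • ρ` with `M` large (`M ≥ ∑_{j ∈ S} |pr j y|`).
* `exists_anti_add_zero`: `κ = M • ρ_i` similarly.
-/

namespace PSG.Dat

variable {ι W Y : Type*} [Fintype ι] [Group W] [AddCommGroup Y] (D : Dat ι W Y)

private lemma annA_invol (i j : ι) : D.actI (D.refl i) (D.actI (D.refl i) j) = j := by
  have h : D.actI (D.refl i * D.refl i) j = D.actI (D.refl i) (D.actI (D.refl i) j) := by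
    rw [map_mul]; rfl
  rw [← h, D.refl_sq, map_one]
  rfl

private lemma annA_self (i : ι) : D.actI (D.refl i) i = D.neg i := by
  have h := D.act_ref_self (i, 0)
  rw [ref_zero, act_em] at h
  exact congrArg Prod.fst h

open Classical in
private lemma annA_sum {M : Type*} [AddCommMonoid M] {i : ι} (hi : i ∈ D.S) (f : ι → M) :
    ∑ j ∈ (Finset.univ.filter (fun j => 0 < D.ht j)).erase i, f (D.actI (D.refl i) j)
      = ∑ j ∈ (Finset.univ.filter (fun j => 0 < D.ht j)).erase i, f j := by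
  have hmem : ∀ j ∈ (Finset.univ.filter (fun j => 0 < D.ht j)).erase i,
      D.actI (D.refl i) j ∈ (Finset.univ.filter (fun j => 0 < D.ht j)).erase i := by
    intro j hj
    rw [Finset.mem_erase, Finset.mem_filter] at hj ⊢
    refine ⟨?_, Finset.mem_univ _, D.perm i hi j hj.2.2 hj.1⟩
    intro h
    have h2 := annA_invol D i j
    rw [h, annA_self] at h2
    have h3 := hj.2.2
    rw [← h2, ht_neg] at h3
    have := D.S_pos i hi
    omega
  exact Finset.sum_nbij' (fun j => D.actI (D.refl i) j) (fun j => D.actI (D.refl i) j) hmem hmem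
    (fun j _ => annA_invol D i j) (fun j _ => annA_invol D i j) (fun j _ => rfl)

open Classical in
lemma exists_rho : ∃ ρ : Y, ∀ i ∈ D.S, D.pr i ρ = -2 := by
  set P : Finset ι := Finset.univ.filter (fun j => 0 < D.ht j) with hP
  refine ⟨-∑ j ∈ P, D.co j, fun i hi => ?_⟩
  have hiP : i ∈ P := by
    rw [hP, Finset.mem_filter]
    exact ⟨Finset.mem_univ _, D.S_pos i hi⟩
  have h1 : D.actY (D.refl i) (∑ j ∈ P, D.co j) = ∑ j ∈ P, D.co j - (2 : ℤ) • D.co i := by
    rw [map_sum]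
    have e : ∀ j ∈ P, D.actY (D.refl i) (D.co j) = D.co (D.actI (D.refl i) j) := fun j _ =>
      (D.co_act _ _).symm
    rw [Finset.sum_congr rfl e, ← Finset.add_sum_erase P _ hiP, annA_sum D hi D.co,
      ← Finset.add_sum_erase P D.co hiP, D.co_act, D.refl_Y, D.pr_co]
    abel
  have h2 := D.refl_Y i (∑ j ∈ P, D.co j)
  rw [h1] at h2
  have h3 : (2 : ℤ) • D.co i = D.pr i (∑ j ∈ P, D.co j) • D.co i := sub_right_injective h2
  have h4 := congrArg (D.pr i) h3
  rw [map_zsmul, map_zsmul, D.pr_co, smul_eq_mul, smul_eq_mul] at h4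
  rw [map_neg]
  omega

lemma exists_rho_i {i : ι} (hi : i ∈ D.S) :
    ∃ ρ : Y, D.pr i ρ = 0 ∧ ∀ j ∈ D.S, j ≠ i → D.pr j ρ ≤ -2 := by
  obtain ⟨ρ, hρ⟩ := D.exists_rho
  refine ⟨ρ + D.co i, ?_, fun j hj hji => ?_⟩
  · rw [map_add, hρ i hi, D.pr_co]
    norm_num
  · rw [map_add, hρ j hj]
    have := D.S_pair j hj i hi hji
    omega

open Classical in
lemma rr_co {i : ι} (hi : i ∈ D.S) : D.rr (D.co i) = 2 := by
  have hiP : i ∈ Finset.univ.filter (fun j => 0 < D.ht j) := by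
    rw [Finset.mem_filter]
    exact ⟨Finset.mem_univ _, D.S_pos i hi⟩
  have e : D.rr (D.co i) = ∑ j ∈ Finset.univ.filter (fun j => 0 < D.ht j), D.pr j (D.co i) := by
    unfold rr
    congr
  rw [e, ← Finset.add_sum_erase _ _ hiP, D.pr_co]
  have h1 := annA_sum D hi (fun j => D.pr j (D.co i))
  have h2 : ∑ j ∈ (Finset.univ.filter (fun j => 0 < D.ht j)).erase i,
      D.pr (D.actI (D.refl i) j) (D.co i)
      = -∑ j ∈ (Finset.univ.filter (fun j => 0 < D.ht j)).erase i, D.pr j (D.co i) := by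
    rw [← Finset.sum_neg_distrib]
    refine Finset.sum_congr rfl fun j _ => ?_
    rw [pr_refl, D.pr_co]
    ring
  rw [h2] at h1
  omega

lemma rr_add (y z : Y) : D.rr (y + z) = D.rr y + D.rr z := by
  unfold rr
  rw [← Finset.sum_add_distrib]
  exact Finset.sum_congr rfl fun j _ => map_add _ _ _

lemma rr_neg (y : Y) : D.rr (-y) = -D.rr y := by
  unfold rr
  rw [← Finset.sum_neg_distrib]
  exact Finset.sum_congr rfl fun j _ => map_neg _ _

lemma rr_zsmul (n : ℤ) (y : Y) : D.rr (n • y) = n * D.rr y := by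
  unfold rr
  rw [Finset.mul_sum]
  refine Finset.sum_congr rfl fun j _ => ?_
  rw [map_zsmul, smul_eq_mul]

lemma exists_anti_add (y : Y) : ∃ κ : Y, D.Anti κ ∧ D.Anti (y + κ) := by
  obtain ⟨ρ, hρ⟩ := D.exists_rho
  set M : ℤ := ∑ j ∈ D.S, |D.pr j y| with hM
  have hM0 : 0 ≤ M := Finset.sum_nonneg fun j _ => abs_nonneg _
  refine ⟨M • ρ, fun i hi => ?_, fun i hi => ?_⟩
  · rw [map_zsmul, hρ i hi, smul_eq_mul]
    omega
  · rw [map_add, map_zsmul, hρ i hi, smul_eq_mul]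
    have h1 : |D.pr i y| ≤ M := Finset.single_le_sum (f := fun j => |D.pr j y|)
      (fun j _ => abs_nonneg _) hi
    have h2 := le_abs_self (D.pr i y)
    omega

lemma exists_anti_add_zero {i : ι} (hi : i ∈ D.S) (y : Y) (hy : D.pr i y ≤ 0) :
    ∃ κ : Y, D.Anti κ ∧ D.pr i κ = 0 ∧ D.Anti (y + κ) := by
  obtain ⟨ρ, hρi, hρ⟩ := D.exists_rho_i hi
  set M : ℤ := ∑ j ∈ D.S, |D.pr j y| with hM
  have hM0 : 0 ≤ M := Finset.sum_nonneg fun j _ => abs_nonneg _
  have hle : ∀ j ∈ D.S, j ≠ i → D.pr j (M • ρ) ≤ -2 * M := by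
    intro j hj hji
    rw [map_zsmul, smul_eq_mul]
    have := hρ j hj hji
    nlinarith
  have hzero : D.pr i (M • ρ) = 0 := by
    rw [map_zsmul, hρi, smul_zero]
  refine ⟨M • ρ, fun j hj => ?_, hzero, fun j hj => ?_⟩
  · by_cases hji : j = i
    · subst hji
      rw [hzero]
    · have := hle j hj hji
      omega
  · rw [map_add]
    by_cases hji : j = i
    · subst hji
      rw [hzero]
      omega
    · have h1 : |D.pr j y| ≤ M := Finset.single_le_sum (f := fun j => |D.pr j y|)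
        (fun j _ => abs_nonneg _) hj
      have h2 := le_abs_self (D.pr j y)
      have := hle j hj hji
      omega

end PSG.Dat
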