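import Pool.Agent.PSG.ActA

/-!
# PSG/Bq: the invariant quadratic form and the measure for inductions

`B y = ∑_j (pr j y)²`, `rr y = ∑_{j>0} pr j y`, `mm y = (B y, rr y + B y)` in `ℕ × ℕ`
(lexicographic).

PROOFS. `B` is `W`-invariant: `pr j (actY w y) = pr (actI w⁻¹ j) y` (`pr_act`), reindex. With `c = co i`,
`n = pr i μ`: `B (μ - k c) = B μ - 2 k X + k² B c`, `X = ∑ pr j μ * pr j c`. Reindexing by
`j ↦ s_i j`: `pr (s_i j) μ = pr j μ - pr j c * n` (`pr_refl`), `pr (s_i j) c = pr j c - 2 pr j c = -pr j c`, so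
`X = -X + n B c`, `2 X = n B c`. Hence `B (μ - k c) = B μ - k (n - k) B c` and `B c ≥ (pr i c)² = 4`.
`rr (μ - n c) = rr μ - n rr c` and `rr (co i) = 2` for `i ∈ S` (this is `rr_co` in `PSG/Ann`; here it is
a hypothesis). `-B y ≤ rr y`: `-(pr j y) ≤ (pr j y)²` for integers; sum over `j > 0` (the other terms of
`B` are `≥ 0`).
`mm_wf`: `B` and `rr + B` are nonnegative integers; (1) `B` decreases, or (2) `B` is equal and `rr` decreases.
-/

namespace PSG.Dat

variable {ι W Y : Type*} [Fintype ι] [Group W] [AddCommGroup Y] (D : Dat ι W Y)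

lemma B_nonneg (y : Y) : 0 ≤ D.B y :=
  Finset.sum_nonneg fun _ _ => sq_nonneg _

lemma B_act (w : W) (y : Y) : D.B (D.actY w y) = D.B y := by
  unfold B
  rw [← Equiv.sum_comp (D.actI w) (fun i => D.pr i (D.actY w y) ^ 2)]
  exact Finset.sum_congr rfl fun i _ => by rw [D.pr_act]

private lemma bq_two (i : ι) (μ : Y) :
    2 * ∑ j, D.pr j μ * D.pr j (D.co i) = D.pr i μ * D.B (D.co i) := by
  have h1 : ∑ j, D.pr j μ * D.pr j (D.co i)
      = ∑ j, (D.pr j μ - D.pr j (D.co i) * D.pr i μ) * (-D.pr j (D.co i)) := by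
    rw [← Equiv.sum_comp (D.actI (D.refl i)) (fun j => D.pr j μ * D.pr j (D.co i))]
    refine Finset.sum_congr rfl fun j _ => ?_
    rw [D.pr_refl i j μ, D.pr_refl i j (D.co i), D.pr_co i]
    ring
  have h2 : ∑ j, (D.pr j μ - D.pr j (D.co i) * D.pr i μ) * (-D.pr j (D.co i))
      = -(∑ j, D.pr j μ * D.pr j (D.co i)) + D.pr i μ * D.B (D.co i) := by
    unfold B
    rw [Finset.mul_sum, ← Finset.sum_neg_distrib, ← Finset.sum_add_distrib]
    exact Finset.sum_congr rfl fun j _ => by ring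
  rw [h2] at h1
  linarith

lemma B_lt (i : ι) (μ : Y) (k : ℤ) (h0 : 0 < k) (h1 : k < D.pr i μ) :
    D.B (μ - k • D.co i) < D.B μ := by
  have h2 := D.bq_two i μ
  have h3 : D.B (μ - k • D.co i) = D.B μ - 2 * k * (∑ j, D.pr j μ * D.pr j (D.co i))
      + k ^ 2 * D.B (D.co i) := by
    unfold B
    rw [Finset.mul_sum, Finset.mul_sum, ← Finset.sum_sub_distrib, ← Finset.sum_add_distrib]
    refine Finset.sum_congr rfl fun j _ => ?_
    rw [map_sub, map_zsmul, smul_eq_mul]
    ring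
  have h4 : 4 ≤ D.B (D.co i) := by
    have h5 : D.pr i (D.co i) ^ 2 ≤ D.B (D.co i) := by
      unfold B
      exact Finset.single_le_sum (f := fun j => D.pr j (D.co i) ^ 2)
        (fun j _ => sq_nonneg _) (Finset.mem_univ i)
    rw [D.pr_co i] at h5
    linarith
  have h6 : D.B (μ - k • D.co i) = D.B μ - k * (D.pr i μ - k) * D.B (D.co i) := by
    rw [h3]
    linear_combination -k * h2
  have h7 : 0 < k * (D.pr i μ - k) * D.B (D.co i) :=
    mul_pos (mul_pos h0 (by linarith)) (by linarith)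
  rw [h6]
  linarith

lemma neg_B_le_rr (y : Y) : -D.B y ≤ D.rr y := by
  classical
  unfold B rr
  have h1 : ∑ i ∈ Finset.univ.filter (fun i => 0 < D.ht i), D.pr i y ^ 2
      ≤ ∑ i, D.pr i y ^ 2 :=
    Finset.sum_le_univ_sum_of_nonneg fun i => sq_nonneg _
  have h2 : -∑ i ∈ Finset.univ.filter (fun i => 0 < D.ht i), D.pr i y ^ 2
      ≤ ∑ i ∈ Finset.univ.filter (fun i => 0 < D.ht i), D.pr i y := by
    rw [← Finset.sum_neg_distrib]
    refine Finset.sum_le_sum fun i _ => ?_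
    rcases le_or_gt 0 (D.pr i y) with h | h
    · nlinarith
    · nlinarith
  linarith

private lemma bq_rr (i : ι) (μ : Y) (k : ℤ) :
    D.rr (μ - k • D.co i) = D.rr μ - k * D.rr (D.co i) := by
  unfold rr
  rw [Finset.mul_sum, ← Finset.sum_sub_distrib]
  refine Finset.sum_congr rfl fun j _ => ?_
  rw [map_sub, map_zsmul, smul_eq_mul]

private lemma bq_aux (hr : ∀ i ∈ D.S, D.rr (D.co i) = 2) {p : Y → Prop}
    (h0 : ∀ μ, D.Anti μ → p μ)
    (h1 : ∀ μ, ∀ i ∈ D.S, 0 < D.pr i μ → p (D.actY (D.refl i) μ) →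
      (∀ μ', D.B μ' < D.B μ → p μ') → p μ) (b : ℕ) :
    ∀ r : ℕ, ∀ μ, (D.B μ).toNat = b → (D.rr μ + D.B μ).toNat = r → p μ := by
  induction b using Nat.strong_induction_on with
  | _ b ihb =>
    intro r
    induction r using Nat.strong_induction_on with
    | _ r ihr =>
      intro μ hb hrr
      by_cases ha : D.Anti μ
      · exact h0 μ ha
      · unfold Anti at ha
        push Not at ha
        obtain ⟨i, hi, hpos⟩ := ha
        have hB0 := D.B_nonneg μ
        have hR0 : 0 ≤ D.rr μ + D.B μ := by have := D.neg_B_le_rr μ; linarith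
        refine h1 μ i hi hpos ?_ ?_
        · have e1 : D.B (D.actY (D.refl i) μ) = D.B μ := D.B_act _ _
          have e2 : D.rr (D.actY (D.refl i) μ) = D.rr μ - D.pr i μ * 2 := by
            rw [D.refl_Y, bq_rr, hr i hi]
          have hR1 : 0 ≤ D.rr (D.actY (D.refl i) μ) + D.B (D.actY (D.refl i) μ) := by
            have := D.neg_B_le_rr (D.actY (D.refl i) μ); linarith
          refine ihr ((D.rr (D.actY (D.refl i) μ) + D.B (D.actY (D.refl i) μ)).toNat) ?_ _ ?_ rfl
          · rw [← hrr]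
            rw [e1, e2] at hR1 ⊢
            omega
          · rw [e1, hb]
        · intro μ' hμ'
          have hB1 := D.B_nonneg μ'
          exact ihb (D.B μ').toNat (by rw [← hb]; omega) _ μ' rfl rfl

/-- Induction principle used in the proofs: reflect towards the antidominant chamber. -/
theorem induction_mu (hr : ∀ i ∈ D.S, D.rr (D.co i) = 2) {p : Y → Prop}
    (h0 : ∀ μ, D.Anti μ → p μ)
    (h1 : ∀ μ, ∀ i ∈ D.S, 0 < D.pr i μ → p (D.actY (D.refl i) μ) →
      (∀ k : ℤ, 0 < k → k < D.pr i μ → p (μ - k • D.co i)) → p μ) :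
    ∀ μ, p μ := by
  intro μ
  refine D.bq_aux hr h0 (fun μ i hi hpos hp hB => ?_) _ _ μ rfl rfl
  exact h1 μ i hi hpos hp fun k hk0 hk1 => hB _ (D.B_lt i μ k hk0 hk1)

/-- The same with smaller values of `B` available. -/
theorem induction_mu' (hr : ∀ i ∈ D.S, D.rr (D.co i) = 2) {p : Y → Prop}
    (h0 : ∀ μ, D.Anti μ → p μ)
    (h1 : ∀ μ, ∀ i ∈ D.S, 0 < D.pr i μ → p (D.actY (D.refl i) μ) →
      (∀ μ', D.B μ' < D.B μ → p μ') → p μ) :
    ∀ μ, p μ := by
  intro μ
  exact D.bq_aux hr h0 h1 _ _ μ rfl rfl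

end PSG.Dat
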