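import Pool.Agent.PSG.Sim

/-!
# PSG/Desc: every element of positive length has a simple descent

PROOF. Put `K = 1 + ∑ i, |ht i|` and `hh a = ht a.1 + K * a.2`. Then `Pos a ↔ 0 < hh a` (if
`a.2 ≥ 1` then `hh a ≥ K - |ht a.1| ≥ 1`; if `a.2 ≤ -1` then `hh a ≤ -1`; if `a.2 = 0` clear, `ht ≠ 0`).
`hh` is additive for functional identities: if `pr c.1 = p • pr a.1 - pr b.1` and
`c.2 = p a.2 - b.2` then `hh c = p hh a - hh b` (`ht_lin` with the coefficient function
`p [· = a.1] - [· = b.1]`, i.e. `fun m => p * (if m = a.1 then 1 else 0) - (if m = b.1 then 1 else 0)`),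
similarly for sums and differences (use `classical`). Also functional identities are preserved by `act x`
(`pr_actI`, and the second coordinates subtract `pr _ x.tr`).

Let `inv x` be nonempty (finite by `inv_finite`); choose `a ∈ inv x` with `hh a` minimal. Claim:
`SA a`. `Pos a` is clear and `a ∈ inv (ref a)` by `act_ref_self`. Suppose `b ∈ inv (ref a)`, `b ≠ a`.
Let `p = pr b.1 (co a.1)` and `c = ng (act (ref a) b)`, positive. By `pr_act_ref`:
`pr c.1 = p pr a.1 - pr b.1`, `c.2 = p a.2 - b.2`, so `hh b + hh c = p hh a`, hence `p ≥ 1`.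

(*) If `a = d + e` (functional identity and `a.2 = d.2 + e.2`) with `d`, `e` positive: contradiction.
Indeed `hh (x d) + hh (x e) = hh (x a) < 0` so `x d` or `x e` is negative, i.e. `d ∈ inv x` or
`e ∈ inv x`, but `hh d, hh e < hh a`.

Case `b.1 = a.1`. Then `p = 2` and `pr c.1 = pr a.1` so `c.1 = a.1` (`pr_inj`), `c.2 = 2 a.2 - b.2`, and
`b.2 ≠ a.2`. One of `b.2`, `c.2` is `< a.2`; call it `d` (`d.1 = a.1`, `d.2 < a.2`, `d` positive).
`x a` negative means `(x a).2 ≤ 0`, and `(x d).2 = (x a).2 - (a.2 - d.2) < 0`, so `d ∈ inv x`,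
while `hh d < hh a`: contradiction.

Case `b.1 ≠ a.1`; then also `c.1 ≠ a.1` (if `c.1 = a.1` then `pr b.1 = (p-1) pr a.1`; evaluating at
`co a.1`: `p = 2(p-1)`, `p = 2`, `pr b.1 = pr a.1`, contradiction to `pr_inj`). Prove by strong
induction on the natural number `p`: there are no positive `b, c` with
`b.1 ≠ a.1`, `c.1 ≠ a.1`, `pr b.1 (co a.1) = p = pr c.1 (co a.1)`, `p ≥ 1`,
`pr b.1 + pr c.1 = p pr a.1`, `b.2 + c.2 = p a.2`. If `p = 1` this is (*). If `p ≥ 2`: `sub_mem`
(for `b.1, a.1`) gives `k` with `pr k = pr b.1 - pr a.1`; `e := (k, b.2 - a.2)`. If `e` is negative, `a = b + ng e`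
contradicts (*). So `e` is positive, similarly `e' := c - a` is positive, and `e + e' = (p-2) a`.
If `p = 2`: `hh e + hh e' = 0`, contradiction. If `p ≥ 3`: `e.1 ≠ a.1` (otherwise
`pr b.1 = 2 pr a.1`, excluded by `red`), `e'.1 ≠ a.1`, `pr e.1 (co a.1) = p - 2`, induction.

`descW`: for `w : W` with `inv (em w)` nonempty: if `0 < ht (actI w j)` for all `j ∈ S`, then for every positive
`i`, `pr (actI w i) = ∑ f_j pr (actI w j)` (from `comb`, `pr_actI`), so
`ht (actI w i) = ∑_{j ∈ S} f_j ht (actI w j) > 0` (`ht_lin` with the coefficient function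
`c k = ∑_{j ∈ S} if actI w j = k then f j else 0`; reindex by the bijection `actI w`). Hence
`inv (em w) = ∅` (an element `(i, n)` of it has `n = 0`, `ht i > 0` by `act_em`).
-/

namespace PSG.Dat

variable {ι W Y : Type*} [Fintype ι] [Group W] [AddCommGroup Y] (D : Dat ι W Y)

private def dK : ℤ := 1 + ∑ i, |D.ht i|

private def dh (a : ι × ℤ) : ℤ := D.ht a.1 + D.dK * a.2

private lemma d_abs (i : ι) : |D.ht i| ≤ D.dK - 1 := by
  have h : |D.ht i| ≤ ∑ i, |D.ht i| :=
    Finset.single_le_sum (f := fun i => |D.ht i|) (fun i _ => abs_nonneg _) (Finset.mem_univ i)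
  unfold dK
  linarith

private lemma d_pos (a : ι × ℤ) : D.Pos a ↔ 0 < D.dh a := by
  have h1 := abs_le.1 (D.d_abs a.1)
  have hK : 1 ≤ D.dK := by
    have := abs_nonneg (D.ht a.1)
    linarith [D.d_abs a.1]
  unfold dh Raw.Pos
  rcases lt_trichotomy a.2 0 with h | h | h
  · have h2 : D.dK * a.2 ≤ D.dK * (-1) := mul_le_mul_of_nonneg_left (by omega) (by linarith)
    constructor
    · rintro (h3 | h3)
      · omega
      · omega
    · intro h3
      exfalso
      linarith [h1.2]
  · rw [h]
    constructor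
    · rintro (h3 | h3)
      · exact absurd h3 (lt_irrefl _)
      · linarith [h3.2]
    · intro h3
      exact Or.inr ⟨rfl, by linarith⟩
  · have h2 : D.dK * 1 ≤ D.dK * a.2 := mul_le_mul_of_nonneg_left (by omega) (by linarith)
    constructor
    · intro _
      linarith [h1.1]
    · intro _
      exact Or.inl h

private lemma d_ht2 {a b c : ι} (p q : ℤ) (h : ∀ y, D.pr c y = p * D.pr a y + q * D.pr b y) :
    D.ht c = p * D.ht a + q * D.ht b := by
  classical
  have key : ∀ f : ι → ℤ, ∑ i, (p * (if i = a then 1 else 0) + q * (if i = b then 1 else 0)) * f i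
      = p * f a + q * f b := by
    intro f
    simp [add_mul, Finset.sum_add_distrib, mul_assoc, ite_mul]
  have h1 := D.ht_lin c (fun i => p * (if i = a then 1 else 0) + q * (if i = b then 1 else 0))
    (fun y => by rw [key (fun i => D.pr i y)]; exact h y)
  rw [h1]
  exact key (fun i => D.ht i)

private lemma d_hh2 {a b c : ι × ℤ} (p q : ℤ)
    (h : ∀ y, D.pr c.1 y = p * D.pr a.1 y + q * D.pr b.1 y) (h2 : c.2 = p * a.2 + q * b.2) :
    D.dh c = p * D.dh a + q * D.dh b := by
  unfold dh
  rw [D.d_ht2 p q h, h2]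
  ring

private lemma d_star (x : D.Ext) {a : ι × ℤ} (ha : a ∈ D.inv x)
    (hmin : ∀ b ∈ D.inv x, D.dh a ≤ D.dh b) {d e : ι × ℤ} (hd : D.Pos d) (he : D.Pos e)
    (h : ∀ y, D.pr a.1 y = D.pr d.1 y + D.pr e.1 y) (h2 : a.2 = d.2 + e.2) : False := by
  have h3 : D.dh a = D.dh d + D.dh e := by
    have := D.d_hh2 (a := d) (b := e) (c := a) 1 1 (fun y => by rw [h y]; ring)
      (by rw [h2]; ring)
    linarith
  have h4 : D.dh (D.act x a) = D.dh (D.act x d) + D.dh (D.act x e) := by
    have := D.d_hh2 (a := D.act x d) (b := D.act x e) (c := D.act x a) 1 1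
      (fun y => by
        simp only [Raw.act]
        rw [D.pr_actI, D.pr_actI, D.pr_actI, h]
        ring)
      (by
        simp only [Raw.act]
        rw [h, h2]
        ring)
    linarith
  have hd0 := (D.d_pos d).1 hd
  have he0 := (D.d_pos e).1 he
  have ha1 : ¬ D.Pos (D.act x a) := ha.2
  rw [D.d_pos] at ha1
  by_cases hxd : D.Pos (D.act x d)
  · by_cases hxe : D.Pos (D.act x e)
    · have h5 := (D.d_pos _).1 hxd
      have h6 := (D.d_pos _).1 hxe
      linarith
    · have := hmin e ⟨he, hxe⟩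
      linarith
  · have := hmin d ⟨hd, hxd⟩
    linarith

private lemma d_star2 (x : D.Ext) {a : ι × ℤ} (ha : a ∈ D.inv x)
    (hmin : ∀ b ∈ D.inv x, D.dh a ≤ D.dh b) {d : ι × ℤ} (hd : D.Pos d) (h : d.1 = a.1)
    (h2 : d.2 < a.2) : False := by
  have ha1 : ¬ D.Pos (D.act x a) := ha.2
  have h3 : (D.act x a).2 ≤ 0 := by
    by_contra hne
    exact ha1 (Or.inl (not_le.1 hne))
  have h4 : ¬ D.Pos (D.act x d) := by
    simp only [Raw.act] at h3
    unfold Raw.Pos
    simp only [Raw.act]
    rw [h]
    rintro (h5 | h5)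
    · linarith
    · linarith [h5.1]
  have h5 := hmin d ⟨hd, h4⟩
  have hK : 1 ≤ D.dK := by
    have := abs_nonneg (D.ht a.1)
    linarith [D.d_abs a.1]
  unfold dh at h5
  rw [h] at h5
  have h6 : D.dK * d.2 < D.dK * a.2 := mul_lt_mul_of_pos_left h2 (by linarith)
  linarith

private lemma d_ind (x : D.Ext) {a : ι × ℤ} (ha : a ∈ D.inv x)
    (hmin : ∀ b ∈ D.inv x, D.dh a ≤ D.dh b) : ∀ (n : ℕ) (b c : ι × ℤ), D.Pos b → D.Pos c →
    b.1 ≠ a.1 → c.1 ≠ a.1 → D.pr b.1 (D.co a.1) = n → D.pr c.1 (D.co a.1) = n → 1 ≤ n →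
    (∀ y, D.pr b.1 y + D.pr c.1 y = n * D.pr a.1 y) → b.2 + c.2 = n * a.2 → False := by
  intro n
  induction n using Nat.strong_induction_on with
  | _ n ih =>
    intro b c hb hc hba hca hpb hpc hn hsum hsum2
    rcases Nat.lt_or_ge n 2 with hn2 | hn2
    · have hn1 : n = 1 := by omega
      subst hn1
      refine D.d_star x ha hmin hb hc (fun y => ?_) ?_
      · rw [hsum y]; push_cast; ring
      · rw [hsum2]; push_cast; ring
    · have hnz : (2 : ℤ) ≤ (n : ℤ) := by exact_mod_cast hn2
      obtain ⟨k, hk⟩ := D.sub_mem b.1 a.1 hba (by rw [hpb]; linarith)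
      obtain ⟨k', hk'⟩ := D.sub_mem c.1 a.1 hca (by rw [hpc]; linarith)
      have hpe : D.Pos (k, b.2 - a.2) := by
        by_contra hne
        have h1 : D.Pos (D.ng (k, b.2 - a.2)) := (D.pos_ng _).2 hne
        refine D.d_star x ha hmin hb h1 (fun y => ?_) ?_
        · simp only [ng]
          rw [D.pr_neg, hk y]
          ring
        · simp only [ng]
          ring
      have hpe' : D.Pos (k', c.2 - a.2) := by
        by_contra hne
        have h1 : D.Pos (D.ng (k', c.2 - a.2)) := (D.pos_ng _).2 hne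
        refine D.d_star x ha hmin hc h1 (fun y => ?_) ?_
        · simp only [ng]
          rw [D.pr_neg, hk' y]
          ring
        · simp only [ng]
          ring
      rcases Nat.lt_or_ge n 3 with hn3 | hn3
      · have hn1 : n = 2 := by omega
        subst hn1
        have h1 := D.d_hh2 (a := b) (b := a) (c := (k, b.2 - a.2)) 1 (-1)
          (fun y => by simp only; rw [hk y]; ring) (by simp only; ring)
        have h2 := D.d_hh2 (a := c) (b := a) (c := (k', c.2 - a.2)) 1 (-1)
          (fun y => by simp only; rw [hk' y]; ring) (by simp only; ring)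
        have h3 := D.d_hh2 (a := a) (b := b) (c := c) 2 (-1)
          (fun y => by have := hsum y; push_cast at this; linarith)
          (by push_cast at hsum2; linarith)
        have h4 := (D.d_pos _).1 hpe
        have h5 := (D.d_pos _).1 hpe'
        linarith
      · have hcast : ((n - 2 : ℕ) : ℤ) = (n : ℤ) - 2 := by
          rw [Nat.cast_sub hn2]; rfl
        refine ih (n - 2) (by omega) (k, b.2 - a.2) (k', c.2 - a.2) hpe hpe' ?_ ?_ ?_ ?_
          (by omega) ?_ ?_
        · intro h1
          refine D.red b.1 a.1 (fun y => ?_)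
          have h2 := hk y
          simp only at h1
          rw [h1] at h2
          linarith
        · intro h1
          refine D.red c.1 a.1 (fun y => ?_)
          have h2 := hk' y
          simp only at h1
          rw [h1] at h2
          linarith
        · simp only
          rw [hk, hpb, D.pr_co, hcast]
        · simp only
          rw [hk', hpc, D.pr_co, hcast]
        · intro y
          simp only
          rw [hk, hk', hcast]
          linarith [hsum y]
        · simp only
          rw [hcast]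
          linarith

/-- Every element of positive length has a simple descent. -/
theorem exists_desc (x : D.Ext) (h : (D.inv x).Nonempty) : ∃ a, D.SA a ∧ a ∈ D.inv x := by
  obtain ⟨a, ha, hmin'⟩ := Set.exists_min_image (D.inv x) D.dh (D.inv_finite x) h
  have hmin : ∀ b ∈ D.inv x, D.dh a ≤ D.dh b := hmin'
  refine ⟨a, ⟨ha.1, ?_⟩, ha⟩
  apply Set.eq_singleton_iff_unique_mem.2
  refine ⟨⟨ha.1, ?_⟩, ?_⟩
  · rw [D.act_ref_self, D.pos_ng]
    exact not_not.2 ha.1
  · intro b hb
    by_contra hba
    have hc : D.Pos (D.ng (D.act (D.ref a) b)) := (D.pos_ng _).2 hb.2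
    have hc1 : ∀ y, D.pr (D.ng (D.act (D.ref a) b)).1 y
        = D.pr b.1 (D.co a.1) * D.pr a.1 y - D.pr b.1 y := by
      intro y
      simp only [ng]
      rw [D.pr_neg, D.pr_act_ref]
      ring
    have hc2 : (D.ng (D.act (D.ref a) b)).2 = D.pr b.1 (D.co a.1) * a.2 - b.2 := by
      simp only [ng, D.act_ref]
      ring
    generalize D.ng (D.act (D.ref a) b) = c at hc hc1 hc2
    have hsum := D.d_hh2 (a := a) (b := b) (c := c) (D.pr b.1 (D.co a.1)) (-1)
      (fun y => by rw [hc1 y]; ring) (by rw [hc2]; ring)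
    have hpa := (D.d_pos _).1 ha.1
    have hpb := (D.d_pos _).1 hb.1
    have hpc := (D.d_pos _).1 hc
    have hp1 : 1 ≤ D.pr b.1 (D.co a.1) := by
      by_contra hne
      have h1 : D.pr b.1 (D.co a.1) ≤ 0 := by omega
      have h2 := mul_nonpos_of_nonpos_of_nonneg h1 hpa.le
      linarith
    by_cases hb1 : b.1 = a.1
    · have hp2 : D.pr b.1 (D.co a.1) = 2 := by rw [hb1]; exact D.pr_co _
      have hca : c.1 = a.1 := D.pr_inj _ _ (fun y => by rw [hc1 y, hp2, hb1]; ring)
      have hb2 : b.2 ≠ a.2 := fun h2 => hba (Prod.ext hb1 h2)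
      rcases lt_or_gt_of_ne hb2 with h2 | h2
      · exact D.d_star2 x ha hmin hb.1 hb1 h2
      · refine D.d_star2 x ha hmin hc hca ?_
        rw [hc2, hp2]
        linarith
    · have hca : c.1 ≠ a.1 := by
        intro h1
        have h2 : ∀ y, D.pr b.1 y = (D.pr b.1 (D.co a.1) - 1) * D.pr a.1 y := by
          intro y
          have h3 := hc1 y
          rw [h1] at h3
          linarith
        have h3 := h2 (D.co a.1)
        rw [D.pr_co] at h3
        have h4 : D.pr b.1 (D.co a.1) = 2 := by linarith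
        refine hb1 (D.pr_inj _ _ (fun y => ?_))
        rw [h2 y, h4]
        ring
      obtain ⟨n, hn⟩ := Int.eq_ofNat_of_zero_le (by linarith : 0 ≤ D.pr b.1 (D.co a.1))
      refine D.d_ind x ha hmin n b c hb.1 hc hb1 hca hn ?_ ?_ ?_ ?_
      · rw [hc1, D.pr_co, hn]
        push_cast
        ring
      · rw [hn] at hp1
        exact_mod_cast hp1
      · intro y
        rw [hc1 y, hn]
        push_cast
        ring
      · rw [hc2, hn]
        push_cast
        ring

private lemma d_comb (w : W) {i : ι} {f : ι → ℕ}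
    (hf : ∀ y, D.pr i y = ∑ j ∈ D.S, (f j : ℤ) * D.pr j y) :
    D.ht (D.actI w i) = ∑ j ∈ D.S, (f j : ℤ) * D.ht (D.actI w j) := by
  classical
  have key : ∀ g : ι → ℤ, ∑ k, (∑ j ∈ D.S, if D.actI w j = k then (f j : ℤ) else 0) * g k
      = ∑ j ∈ D.S, (f j : ℤ) * g (D.actI w j) := by
    intro g
    simp only [Finset.sum_mul]
    rw [Finset.sum_comm]
    refine Finset.sum_congr rfl fun j _ => ?_
    simp [ite_mul]
  have h1 := D.ht_lin (D.actI w i)
    (fun k => ∑ j ∈ D.S, if D.actI w j = k then (f j : ℤ) else 0) (fun y => by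
      rw [key (fun k => D.pr k y), D.pr_actI, hf]
      refine Finset.sum_congr rfl fun j _ => ?_
      rw [D.pr_actI])
  rw [h1]
  exact key (fun k => D.ht k)

/-- If `w` maps all simple roots to positive roots it maps all positive roots to positive roots. -/
theorem pos_of_simple (w : W) (h : ∀ j ∈ D.S, 0 < D.ht (D.actI w j)) :
    ∀ i, 0 < D.ht i → 0 < D.ht (D.actI w i) := by
  intro i hi
  obtain ⟨f, ⟨j, hj, hfj⟩, hf⟩ := D.comb i hi
  rw [D.d_comb w hf]
  refine Finset.sum_pos' (fun k hk => ?_) ⟨j, hj, ?_⟩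
  · exact mul_nonneg (by positivity) (h k hk).le
  · have : 0 < (f j : ℤ) := by
      have := Nat.pos_of_ne_zero hfj
      exact_mod_cast this
    exact mul_pos this (h j hj)

/-- If `w` maps all simple roots to negative roots it maps all positive roots to negative roots. -/
theorem neg_of_simple (w : W) (h : ∀ j ∈ D.S, D.ht (D.actI w j) < 0) :
    ∀ i, 0 < D.ht i → D.ht (D.actI w i) < 0 := by
  intro i hi
  obtain ⟨f, ⟨j, hj, hfj⟩, hf⟩ := D.comb i hi
  have h1 : 0 < ∑ j ∈ D.S, (f j : ℤ) * (-D.ht (D.actI w j)) := by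
    refine Finset.sum_pos' (fun k hk => ?_) ⟨j, hj, ?_⟩
    · exact mul_nonneg (by positivity) (by linarith [h k hk])
    · have : 0 < (f j : ℤ) := by
        have := Nat.pos_of_ne_zero hfj
        exact_mod_cast this
      exact mul_pos this (by linarith [h j hj])
  rw [D.d_comb w hf]
  simp only [mul_neg, Finset.sum_neg_distrib] at h1
  linarith

/-- Antidominant cocharacters pair nonpositively with positive roots. -/
theorem anti_pos {ν : Y} (h : D.Anti ν) {i : ι} (hi : 0 < D.ht i) : D.pr i ν ≤ 0 := by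
  obtain ⟨f, -, hf⟩ := D.comb i hi
  rw [hf ν]
  refine Finset.sum_nonpos fun k hk => ?_
  exact mul_nonpos_of_nonneg_of_nonpos (by positivity) (h k hk)

end PSG.Dat
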