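import Pool.Agent.PSG.Desc

/-!
# PSG/Exch: the exchange property

PROOF of `exchange`. Induction on `len z`. `inv z` contains `a`, so by `exists_desc` there is `SA b0`
with `b0 ∈ inv z`; `len (z * ref b0) + 1 = len z` (`len_mul_ref_neg`).
If `b0 = a`: take `x' = z * ref b0`, `b = b0`, `y' = 1` (`ref_ref`, `len_one`).
If `b0 ≠ a`: let `z' = z * ref b0`, `a' = act (ref b0) a`. `a'` is positive (`sa_pos`), and
`act z' a' = act z a` (as `ref b0 * ref b0 = 1`) is negative; `len z' < len z`. Induction: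
`z' = x' * ref b * y''`, `len z' = len x' + 1 + len y''`, `z' * ref a' = x' * y''`. Put
`y' = y'' * ref b0`. Then `z = z' * ref b0 = x' * ref b * y'`;
`z * ref a = z' * ref b0 * ref a = z' * (ref b0 * ref a * ref b0⁻¹) * ref b0 = z' * ref a' * ref b0 = x' * y'`
(`ref_conj`, `ref b0⁻¹ = ref b0`). Lengths: `len z = len z' + 1 = len x' + 1 + (len y'' + 1)`,
`len y' ≤ len y'' + 1` and `len z ≤ len x' + 1 + len y'` (`len_mul_le` twice and
`len (ref b) = 1`), so `len y' = len y'' + 1`.
-/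

namespace PSG.Dat

variable {ι W Y : Type*} [Fintype ι] [Group W] [AddCommGroup Y] (D : Dat ι W Y)

theorem exchange (z : D.Ext) (a : ι × ℤ) (ha : D.Pos a) (hz : ¬ D.Pos (D.act z a)) :
    ∃ (x' : D.Ext) (b : ι × ℤ) (y' : D.Ext), D.SA b ∧ z = x' * D.ref b * y' ∧
      D.len z = D.len x' + 1 + D.len y' ∧ z * D.ref a = x' * y' := by
  obtain ⟨n, hn⟩ : ∃ n, D.len z = n := ⟨_, rfl⟩
  induction n using Nat.strong_induction_on generalizing z a with
  | _ n ih =>
    obtain ⟨b0, hb0, hb1⟩ := D.exists_desc z ⟨a, ha, hz⟩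
    have hlen : D.len (z * D.ref b0) + 1 = D.len z := D.len_mul_ref_neg hb0 z hb1.2
    have hrr : D.ref b0 * D.ref b0 = 1 := D.ref_ref b0
    have hzz : z * D.ref b0 * D.ref b0 = z := by rw [mul_assoc, hrr, mul_one]
    by_cases hab : a = b0
    · subst hab
      refine ⟨z * D.ref a, a, 1, hb0, ?_, ?_, ?_⟩
      · rw [mul_one, hzz]
      · rw [D.len_one]; omega
      · rw [mul_one]
    · have ha' : D.Pos (D.act (D.ref b0) a) := D.sa_pos hb0 ha hab
      have hz' : ¬ D.Pos (D.act (z * D.ref b0) (D.act (D.ref b0) a)) := by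
        rw [← D.act_mul, hzz]
        exact hz
      obtain ⟨x', b, y'', hb, h1, h2, h3⟩ :=
        ih (D.len (z * D.ref b0)) (by omega) (z * D.ref b0) (D.act (D.ref b0) a) ha' hz' rfl
      refine ⟨x', b, y'' * D.ref b0, hb, ?_, ?_, ?_⟩
      · rw [← mul_assoc, ← h1, hzz]
      · have l1 : D.len z ≤ D.len (x' * D.ref b) + D.len (y'' * D.ref b0) := by
          have e : z = x' * D.ref b * (y'' * D.ref b0) := by
            rw [← mul_assoc, ← h1, hzz]
          calc D.len z = D.len (x' * D.ref b * (y'' * D.ref b0)) := by rw [← e]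
            _ ≤ _ := D.len_mul_le _ _
        have l2 : D.len (x' * D.ref b) ≤ D.len x' + D.len (D.ref b) := D.len_mul_le _ _
        have l3 : D.len (y'' * D.ref b0) ≤ D.len y'' + D.len (D.ref b0) := D.len_mul_le _ _
        rw [D.sa_len hb] at l2
        rw [D.sa_len hb0] at l3
        omega
      · rw [← mul_assoc, ← h3, ← D.ref_conj]
        simp only [mul_assoc]
        rw [inv_mul_cancel, mul_one, ← mul_assoc (D.ref b0) (D.ref b0), hrr, one_mul]

/-- Covers in the Bruhat order, in terms of reduced factorisations. -/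
theorem exchange_cover (z : D.Ext) (a : ι × ℤ) (ha : D.Pos a) (hz : ¬ D.Pos (D.act z a))
    (hl : D.len (z * D.ref a) + 1 = D.len z) :
    ∃ (x' : D.Ext) (b : ι × ℤ) (y' : D.Ext), D.SA b ∧ z = x' * D.ref b * y' ∧
      D.len z = D.len x' + 1 + D.len y' ∧ z * D.ref a = x' * y' ∧
      D.len (x' * y') = D.len x' + D.len y' := by
  obtain ⟨x', b, y', h1, h2, h3, h4⟩ := D.exchange z a ha hz
  exact ⟨x', b, y', h1, h2, h3, h4, by rw [← h4]; omega⟩

end PSG.Dat
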