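import Pool.Agent.PSG.Min
import Pool.Agent.PSG.Lp

/-!
# PSG/HkA: first consequences of the presentation of the Hecke algebra

PROOFS.
* `mul_sa_pos`: `hT.mul` and `len_mul_ref_pos`, `sa_len`.
* `mul_sa_neg`: `x = (x * ref a) * ref a` (`ref_ref`), lengths add (`len_mul_ref_neg`, `sa_len`), so
  `T x = T (x * ref a) * T (ref a)`; multiply by `T (ref a)` and use `hT.quad` (`isSimple_iff`).
* left versions: same on the other side.
* `isUnit_T`: induction on `len x`. `len x = 0`: `T x * T x⁻¹ = T 1 = 1` (`len_inv`, `len_zero_mul`).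
  `len x > 0`: `exists_desc` gives `SA a`, `a ∈ inv x`, `T x = T (x * ref a) * T (ref a)`, and
  `T (ref a)` is a unit with inverse `T (ref a) - qq • 1`.
* `supp_mul`: induction on `len y` (for all `x`). `len y = 0`: `T x * T y = T (x * y)`
  (`len_mul_zero`). `len y > 0`: `exists_desc` for `y⁻¹` gives `SA a` with `act y⁻¹ a` negative;
  `y = ref a * y'`, `y' = ref a * y`, `len y = len y' + 1` (`len_ref_mul_neg`), `T y = T (ref a) * T y'`;
  `T x * T (ref a)` is `T (x * ref a)` or `T (x * ref a) + qq • T x` and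
  `len (x * ref a) ≤ len x + 1` (`len_mul_le`); apply the induction hypothesis to `x * ref a`, `y'` and
  `x`, `y'`.
* `Ti_mul_rev`: uniqueness of inverses and `hT.mul`.
* `Ti_sa`: `T (ref a) * (T (ref a) - qq • 1) = 1`.
* `tw`: `tw w = Ti (em w⁻¹)`. `tw_refl_mul`: `(refl i * w)⁻¹ = w⁻¹ * refl i`, lengths add (`lw_inv`).
-/

namespace PSG.Dat

variable {ι W Y : Type*} [Fintype ι] [Group W] [AddCommGroup Y] (D : Dat ι W Y)
variable {H : Type*} [Ring H] [Algebra A H] {T : Module.Basis D.Ext A H}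

/-- The inverse of `T x`. -/
noncomputable def Ti (T : Module.Basis D.Ext A H) (x : D.Ext) : H := Ring.inverse (T x)

/-- `tw w` is the inverse of `T (w⁻¹)`. -/
noncomputable def tw (T : Module.Basis D.Ext A H) (w : W) : H := D.Ti T (D.em w⁻¹)

/-- The inverse of `T (s_i)`. -/
noncomputable def tau (T : Module.Basis D.Ext A H) (i : ι) : H := T (D.em (D.refl i)) - qq • 1

section

variable (hT : D.IsHecke T)

include hT

lemma mul_sa_pos {a : ι × ℤ} (ha : D.SA a) (x : D.Ext) (h : D.Pos (D.act x a)) :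
    T x * T (D.ref a) = T (x * D.ref a) :=
  hT.mul x (D.ref a) (by rw [D.len_mul_ref_pos ha x h, D.sa_len ha])

lemma sa_quad {a : ι × ℤ} (ha : D.SA a) :
    T (D.ref a) * T (D.ref a) = 1 + qq • T (D.ref a) :=
  hT.quad (D.ref a) ((D.isSimple_iff (D.ref a)).mpr ⟨a, ha, rfl⟩)

lemma mul_sa_neg {a : ι × ℤ} (ha : D.SA a) (x : D.Ext) (h : ¬ D.Pos (D.act x a)) :
    T x * T (D.ref a) = T (x * D.ref a) + qq • T x := by
  have h1 := D.len_mul_ref_neg ha x h
  have h2 : x * D.ref a * D.ref a = x := by rw [mul_assoc, D.ref_ref, mul_one]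
  have h3 : T (x * D.ref a) * T (D.ref a) = T x := by
    have h4 := hT.mul (x * D.ref a) (D.ref a) (by rw [h2, D.sa_len ha, h1])
    rw [h2] at h4
    exact h4
  calc T x * T (D.ref a) = T (x * D.ref a) * (T (D.ref a) * T (D.ref a)) := by
        rw [← mul_assoc, h3]
    _ = T (x * D.ref a) + qq • T x := by
        rw [D.sa_quad hT ha, mul_add, mul_one, mul_smul_comm, h3]

lemma sa_mul_pos {a : ι × ℤ} (ha : D.SA a) (x : D.Ext) (h : D.Pos (D.act x⁻¹ a)) :
    T (D.ref a) * T x = T (D.ref a * x) :=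
  hT.mul (D.ref a) x (by rw [D.len_ref_mul_pos ha x h, D.sa_len ha, add_comm])

lemma sa_mul_neg {a : ι × ℤ} (ha : D.SA a) (x : D.Ext) (h : ¬ D.Pos (D.act x⁻¹ a)) :
    T (D.ref a) * T x = T (D.ref a * x) + qq • T x := by
  have h1 := D.len_ref_mul_neg ha x h
  have h2 : D.ref a * (D.ref a * x) = x := by rw [← mul_assoc, D.ref_ref, one_mul]
  have h3 : T (D.ref a) * T (D.ref a * x) = T x := by
    have h4 := hT.mul (D.ref a) (D.ref a * x) (by rw [h2, D.sa_len ha, ← h1, add_comm])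
    rw [h2] at h4
    exact h4
  calc T (D.ref a) * T x = (T (D.ref a) * T (D.ref a)) * T (D.ref a * x) := by
        rw [mul_assoc, h3]
    _ = T (D.ref a * x) + qq • T x := by
        rw [D.sa_quad hT ha, add_mul, one_mul, smul_mul_assoc, h3]

lemma sa_mul_inv' {a : ι × ℤ} (ha : D.SA a) :
    T (D.ref a) * (T (D.ref a) - qq • 1) = 1 := by
  rw [mul_sub, D.sa_quad hT ha, mul_smul_comm, mul_one, add_sub_cancel_right]

lemma sa_inv_mul' {a : ι × ℤ} (ha : D.SA a) :
    (T (D.ref a) - qq • 1) * T (D.ref a) = 1 := by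
  rw [sub_mul, D.sa_quad hT ha, smul_mul_assoc, one_mul, add_sub_cancel_right]

lemma exists_desc' (x : D.Ext) (h : D.len x ≠ 0) :
    ∃ a, D.SA a ∧ ¬ D.Pos (D.act x a) := by
  have hne : (D.inv x).Nonempty := by
    by_contra hc
    rw [Set.not_nonempty_iff_eq_empty] at hc
    apply h
    change (D.inv x).ncard = 0
    rw [hc, Set.ncard_empty]
  obtain ⟨a, h1, h2⟩ := D.exists_desc x hne
  exact ⟨a, h1, h2.2⟩

lemma isUnit_T (x : D.Ext) : IsUnit (T x) := by
  induction hn : D.len x using Nat.strong_induction_on generalizing x with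
  | _ n ih =>
    subst hn
    by_cases h0 : D.len x = 0
    · have hi : D.len x⁻¹ = 0 := by rw [D.len_inv, h0]
      rw [isUnit_iff_exists]
      refine ⟨T x⁻¹, ?_, ?_⟩
      · rw [hT.mul x x⁻¹ (by rw [mul_inv_cancel, D.len_one, h0, hi]), mul_inv_cancel, hT.one]
      · rw [hT.mul x⁻¹ x (by rw [inv_mul_cancel, D.len_one, h0, hi]), inv_mul_cancel, hT.one]
    · obtain ⟨a, ha, hneg⟩ := D.exists_desc' hT x h0
      have h1 := D.len_mul_ref_neg ha x hneg
      have h2 : x * D.ref a * D.ref a = x := by rw [mul_assoc, D.ref_ref, mul_one]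
      have h3 : T (x * D.ref a) * T (D.ref a) = T x := by
        have h4 := hT.mul (x * D.ref a) (D.ref a) (by rw [h2, D.sa_len ha, h1])
        rw [h2] at h4
        exact h4
      rw [← h3]
      refine IsUnit.mul (ih (D.len (x * D.ref a)) (by omega) _ rfl) ?_
      rw [isUnit_iff_exists]
      exact ⟨_, D.sa_mul_inv' hT ha, D.sa_inv_mul' hT ha⟩

lemma Ti_mul (x : D.Ext) : D.Ti T x * T x = 1 :=
  Ring.inverse_mul_cancel _ (D.isUnit_T hT x)

lemma mul_Ti (x : D.Ext) : T x * D.Ti T x = 1 :=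
  Ring.mul_inverse_cancel _ (D.isUnit_T hT x)

lemma Ti_eq_of (x : D.Ext) {u : H} (h : T x * u = 1) : D.Ti T x = u := by
  calc D.Ti T x = D.Ti T x * (T x * u) := by rw [h, mul_one]
    _ = u := by rw [← mul_assoc, D.Ti_mul hT, one_mul]

lemma supp_mul (x y z : D.Ext) (h : T.repr (T x * T y) z ≠ 0) : D.len z ≤ D.len x + D.len y := by
  classical
  induction hn : D.len y using Nat.strong_induction_on generalizing x y z with
  | _ n ih =>
    subst hn
    by_cases h0 : D.len y = 0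
    · rw [hT.mul x y (by rw [D.len_mul_zero x y h0, h0, add_zero]), T.repr_self,
        Finsupp.single_apply] at h
      have hz : x * y = z := by
        by_contra hc
        exact h (if_neg hc)
      rw [← hz, D.len_mul_zero x y h0]
      omega
    · obtain ⟨a, ha, hneg⟩ := D.exists_desc' hT y⁻¹ (by rw [D.len_inv]; exact h0)
      have h1 := D.len_ref_mul_neg ha y hneg
      have h2 : D.ref a * (D.ref a * y) = y := by rw [← mul_assoc, D.ref_ref, one_mul]
      have h3 : T (D.ref a) * T (D.ref a * y) = T y := by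
        have h4 := hT.mul (D.ref a) (D.ref a * y) (by rw [h2, D.sa_len ha, ← h1, add_comm])
        rw [h2] at h4
        exact h4
      rw [← h3, ← mul_assoc] at h
      by_cases hp : D.Pos (D.act x a)
      · rw [D.mul_sa_pos hT ha x hp] at h
        have h5 := ih (D.len (D.ref a * y)) (by omega) _ _ _ h rfl
        have h6 := D.len_mul_ref_pos ha x hp
        omega
      · rw [D.mul_sa_neg hT ha x hp, add_mul, smul_mul_assoc, map_add, map_smul,
          Finsupp.add_apply, Finsupp.smul_apply] at h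
        have h6 := D.len_mul_ref_neg ha x hp
        by_cases h7 : T.repr (T (x * D.ref a) * T (D.ref a * y)) z = 0
        · have h8 : T.repr (T x * T (D.ref a * y)) z ≠ 0 := by
            intro h9
            apply h
            rw [h7, h9, smul_zero, add_zero]
          have h5 := ih (D.len (D.ref a * y)) (by omega) _ _ _ h8 rfl
          omega
        · have h5 := ih (D.len (D.ref a * y)) (by omega) _ _ _ h7 rfl
          omega

lemma Ti_mul_rev (x y : D.Ext) (h : D.len (x * y) = D.len x + D.len y) :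
    D.Ti T (x * y) = D.Ti T y * D.Ti T x := by
  apply D.Ti_eq_of hT
  rw [← hT.mul x y h, mul_assoc, ← mul_assoc (T y), D.mul_Ti hT, one_mul, D.mul_Ti hT]

lemma Ti_sa {a : ι × ℤ} (ha : D.SA a) : D.Ti T (D.ref a) = T (D.ref a) - qq • 1 :=
  D.Ti_eq_of hT _ (D.sa_mul_inv' hT ha)

lemma tau_mul {i : ι} (hi : i ∈ D.S) : D.tau T i * T (D.em (D.refl i)) = 1 := by
  have h := D.sa_inv_mul' hT (D.sa_simple hi)
  rw [D.ref_zero] at h
  exact h

lemma mul_tau {i : ι} (hi : i ∈ D.S) : T (D.em (D.refl i)) * D.tau T i = 1 := by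
  have h := D.sa_mul_inv' hT (D.sa_simple hi)
  rw [D.ref_zero] at h
  exact h

lemma tau_sq {i : ι} (hi : i ∈ D.S) : D.tau T i * D.tau T i = 1 - qq • D.tau T i := by
  have h := D.tau_mul hT hi
  calc D.tau T i * D.tau T i = D.tau T i * (T (D.em (D.refl i)) - qq • 1) := rfl
    _ = 1 - qq • D.tau T i := by rw [mul_sub, h, mul_smul_comm, mul_one]

lemma tw_one : D.tw T 1 = 1 := by
  change D.Ti T (D.em 1⁻¹) = 1
  rw [inv_one, D.em_one]
  apply D.Ti_eq_of hT
  rw [hT.one, mul_one]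

lemma len_em_refl {i : ι} (hi : i ∈ D.S) : D.len (D.em (D.refl i)) = 1 := by
  have h := D.sa_len (D.sa_simple hi)
  rwa [D.ref_zero] at h

lemma Ti_refl {i : ι} (hi : i ∈ D.S) : D.Ti T (D.em (D.refl i)) = D.tau T i := by
  have h := D.Ti_sa hT (D.sa_simple hi)
  rw [D.ref_zero] at h
  exact h

lemma tw_refl_mul {i : ι} (hi : i ∈ D.S) (w : W) (h : D.lw (D.refl i * w) = D.lw w + 1) :
    D.tw T (D.refl i * w) = D.tau T i * D.tw T w := by
  change D.Ti T (D.em (D.refl i * w)⁻¹) = D.tau T i * D.Ti T (D.em w⁻¹)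
  have h1 : (D.refl i * w)⁻¹ = w⁻¹ * D.refl i := by rw [mul_inv_rev, D.refl_inv]
  have h2 : D.len (D.em w⁻¹ * D.em (D.refl i)) = D.len (D.em w⁻¹) + D.len (D.em (D.refl i)) := by
    rw [D.em_mul, ← h1, D.len_em_refl hT hi]
    change D.lw (D.refl i * w)⁻¹ = D.lw w⁻¹ + 1
    rw [D.lw_inv, D.lw_inv, h]
  rw [h1, ← D.em_mul, D.Ti_mul_rev hT _ _ h2, D.Ti_refl hT hi]

lemma tw_mul_refl {i : ι} (hi : i ∈ D.S) (w : W) (h : D.lw (w * D.refl i) = D.lw w + 1) :
    D.tw T (w * D.refl i) = D.tw T w * D.tau T i := by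
  change D.Ti T (D.em (w * D.refl i)⁻¹) = D.Ti T (D.em w⁻¹) * D.tau T i
  have h1 : (w * D.refl i)⁻¹ = D.refl i * w⁻¹ := by rw [mul_inv_rev, D.refl_inv]
  have h2 : D.len (D.em (D.refl i) * D.em w⁻¹) = D.len (D.em (D.refl i)) + D.len (D.em w⁻¹) := by
    rw [D.em_mul, ← h1, D.len_em_refl hT hi]
    change D.lw (w * D.refl i)⁻¹ = 1 + D.lw w⁻¹
    rw [D.lw_inv, D.lw_inv, h, add_comm]
  rw [h1, ← D.em_mul, D.Ti_mul_rev hT _ _ h2, D.Ti_refl hT hi]

lemma commute_T' {z : H} (h : ∀ i ∈ D.S, z * T (D.em (D.refl i)) = T (D.em (D.refl i)) * z)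
    (w : W) : z * T (D.em w) = T (D.em w) * z := by
  induction hn : D.lw w using Nat.strong_induction_on generalizing w with
  | _ n ih =>
    subst hn
    by_cases h0 : w = 1
    · rw [h0, D.em_one, hT.one, mul_one, one_mul]
    · obtain ⟨i, hi, hneg⟩ := D.exists_desc_right w h0
      have h1 := D.lw_mul_neg w hi hneg
      have h2 : D.em (w * D.refl i) * D.em (D.refl i) = D.em w := by
        rw [D.em_mul, mul_assoc, D.refl_sq, mul_one]
      have h3 : T (D.em (w * D.refl i)) * T (D.em (D.refl i)) = T (D.em w) := by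
        have h4 := hT.mul (D.em (w * D.refl i)) (D.em (D.refl i)) (by
          rw [h2, D.len_em_refl hT hi]
          exact h1.symm)
        rw [h2] at h4
        exact h4
      rw [← h3, ← mul_assoc, ih (D.lw (w * D.refl i)) (by omega) _ rfl, mul_assoc, h i hi,
        mul_assoc]

/-- An element commuting with the `T (s_i)` commutes with all `tw w`. -/
lemma commute_tw {z : H} (h : ∀ i ∈ D.S, z * T (D.em (D.refl i)) = T (D.em (D.refl i)) * z)
    (w : W) : z * D.tw T w = D.tw T w * z := by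
  have h1 := D.commute_T' hT h w⁻¹
  have h2 := D.mul_Ti hT (D.em w⁻¹)
  have h3 := D.Ti_mul hT (D.em w⁻¹)
  change z * D.Ti T (D.em w⁻¹) = D.Ti T (D.em w⁻¹) * z
  calc z * D.Ti T (D.em w⁻¹)
      = D.Ti T (D.em w⁻¹) * (T (D.em w⁻¹) * z) * D.Ti T (D.em w⁻¹) := by
        rw [← mul_assoc, h3, one_mul]
    _ = D.Ti T (D.em w⁻¹) * z * (T (D.em w⁻¹) * D.Ti T (D.em w⁻¹)) := by
        rw [← h1]; simp only [mul_assoc]
    _ = D.Ti T (D.em w⁻¹) * z := by rw [h2, mul_one]

/-- An element commuting with the `T (s_i)` commutes with all `T w`. -/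
lemma commute_T {z : H} (h : ∀ i ∈ D.S, z * T (D.em (D.refl i)) = T (D.em (D.refl i)) * z)
    (w : W) : z * T (D.em w) = T (D.em w) * z :=
  D.commute_T' hT h w

end

end PSG.Dat
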